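import Mathlib
import Pool.Agent.H.MP_0e398f_al.D

namespace Pool.Agent.Results.MP_0e398f_al.Exotic

/-- For every field `k` there is a brachymorphism `f : k⟨x,y⟩ → k` with `f x = f y = 0` and
`f (x + y) = 1`. -/
theorem result (k : Type*) [Field k] :
    ∃ f : FreeAlgebra k (Fin 2) → k,
      (∀ a, f (1 + a) = 1 + f a) ∧ (∀ a b, f (a * b) = f a * f b) ∧
      f (FreeAlgebra.ι k 0) = 0 ∧ f (FreeAlgebra.ι k 1) = 0 ∧
      f (FreeAlgebra.ι k 0 + FreeAlgebra.ι k 1) = 1 := by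
  obtain ⟨f, h1, h2, h3, h4, h5⟩ := Pool.Agent.H.MP_0e398f_al.exists_f k
  let e := FreeAlgebra.equivMonoidAlgebraFreeMonoid (R := k) (X := Fin 2)
  have he : ∀ i, e (FreeAlgebra.ι k i) = MonoidAlgebra.single (FreeMonoid.of i) 1 := by
    intro i
    simp [e, FreeAlgebra.equivMonoidAlgebraFreeMonoid]
  refine ⟨fun a => f (e a), ?_, ?_, ?_, ?_, ?_⟩
  · intro a
    simp only [map_add, map_one, h1]
  · intro a b
    simp only [map_mul, h2]
  · simp only [he, h3]
  · simp only [he, h4]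
  · simp only [map_add, he, h5]

end Pool.Agent.Results.MP_0e398f_al.Exotic
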